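import Pool.Agent.N275.QD.Def
import Pool.Agent.R225.LP.G1
import Pool.Agent.R225.LP.NF
import Pool.Agent.R225.LP.TZ

set_option autoImplicit false

/-!
# QD/N4: normal form of a quadrilateral (helper96, for the project of helper275)
-/

namespace Pool.Agent.N96.QD

open MeasureTheory Set Filter Topology Complex
open Pool.Agent.W780.PG (IsConvexPolygon region ang lft)
open Pool.Agent.Y289.SQ (Z area per)
open Pool.Agent.R225.LP
open Pool.Agent.R225.LP.NF
open Pool.Agent.N275.QD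
open scoped Real ENNReal ComplexConjugate

section

variable {l s s' a b : ℝ}

lemma t0 : q4 l s s' a b 0 = 0 := rfl
lemma t1 : q4 l s s' a b 1 = l := rfl
lemma t2 : q4 l s s' a b 2 = ((l - s' * b : ℝ) : ℂ) + (b : ℂ) * I := rfl
lemma t3 : q4 l s s' a b 3 = ((s * a : ℝ) : ℂ) + (a : ℂ) * I := rfl

lemma e0 : (0 : Fin (1 + 3)) + 1 = 1 := by decide
lemma e1 : (1 : Fin (1 + 3)) + 1 = 2 := by decide
lemma e2 : (2 : Fin (1 + 3)) + 1 = 3 := by decide
lemma e3 : (3 : Fin (1 + 3)) + 1 = 0 := by decide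

lemma l0 (z : ℂ) : lft (q4 l s s' a b 0) (q4 l s s' a b 1) z = l * z.im := by
  rw [t0, t1]
  simp [lft]

lemma l1 (z : ℂ) : lft (q4 l s s' a b 1) (q4 l s s' a b 2) z = b * (l - z.re - s' * z.im) := by
  rw [t1, t2]
  simp [lft]
  ring

lemma l2 (z : ℂ) : lft (q4 l s s' a b 2) (q4 l s s' a b 3) z =
    (s * a - l + s' * b) * (z.im - b) - (a - b) * (z.re - (l - s' * b)) := by
  rw [t2, t3]
  simp [lft]
  ring

lemma l3 (z : ℂ) : lft (q4 l s s' a b 3) (q4 l s s' a b 0) z = a * (z.re - s * z.im) := by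
  rw [t3, t0]
  simp [lft]
  ring

theorem convex_q4 (hl : 0 < l) (ha : 0 < a) (hb : 0 < b) (hs : s + s' < 0) :
    IsConvexPolygon (q4 l s s' a b) := by
  have hla : 0 < l * a := mul_pos hl ha
  have hlb : 0 < l * b := mul_pos hl hb
  have hab : 0 < a * b := mul_pos ha hb
  have h1 : 0 < -(s + s') * (a * b) := mul_pos (by linarith) hab
  constructor
  intro i j h1' h2'
  have hi : i = 0 ∨ i = 1 ∨ i = 2 ∨ i = 3 := by
    fin_cases i <;> simp
  have hj : j = 0 ∨ j = 1 ∨ j = 2 ∨ j = 3 := by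
    fin_cases j <;> simp
  rcases hi with rfl | rfl | rfl | rfl
  · rw [e0, l0] at *
    rcases hj with rfl | rfl | rfl | rfl
    · exact absurd rfl h1'
    · exact absurd rfl h2'
    · rw [t2]; simp; nlinarith
    · rw [t3]; simp; nlinarith
  · rw [e1, l1] at *
    rcases hj with rfl | rfl | rfl | rfl
    · rw [t0]; simp; nlinarith
    · exact absurd rfl h1'
    · exact absurd rfl h2'
    · rw [t3]; simp; nlinarith
  · rw [e2, l2] at *
    rcases hj with rfl | rfl | rfl | rfl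
    · rw [t0]; simp; nlinarith
    · rw [t1]; simp; nlinarith
    · exact absurd rfl h1'
    · exact absurd rfl h2'
  · rw [e3, l3] at *
    rcases hj with rfl | rfl | rfl | rfl
    · exact absurd rfl h2'
    · rw [t1]; simp; nlinarith
    · rw [t2]; simp; nlinarith
    · exact absurd rfl h1'

theorem area_q4 (hl : 0 < l) (ha : 0 < a) (hb : 0 < b) (hs : s + s' < 0) :
    area (region (q4 l s s' a b)) = (l * (a + b) - (s + s') * (a * b)) / 2 := by
  have h1 := Pool.Agent.Y275.HI.shoe' (convex_q4 hl ha hb hs)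
  have h2 : ∑ j : Fin (1 + 3), (conj (q4 l s s' a b j) * q4 l s s' a b (j + 1)).im =
      l * (a + b) - (s + s') * (a * b) := by
    rw [show (∑ j : Fin (1 + 3), (conj (q4 l s s' a b j) * q4 l s s' a b (j + 1)).im) =
      (conj (q4 l s s' a b 0) * q4 l s s' a b (0 + 1)).im + (conj (q4 l s s' a b 1) * q4 l s s' a b (1 + 1)).im +
      (conj (q4 l s s' a b 2) * q4 l s s' a b (2 + 1)).im + (conj (q4 l s s' a b 3) * q4 l s s' a b (3 + 1)).im
      from Fin.sum_univ_four _, e0, e1, e2, e3, t0, t1, t2, t3]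
    simp
    ring
  rw [h2] at h1
  linarith

lemma norm_eq_of_sq {z : ℂ} {r : ℝ} (hr : 0 ≤ r) (h : z.re ^ 2 + z.im ^ 2 = r ^ 2) : ‖z‖ = r := by
  have h1 : ‖z‖ ^ 2 = r ^ 2 := by
    rw [Complex.sq_norm, Complex.normSq_apply, ← h]
    ring
  exact (pow_left_inj₀ (norm_nonneg _) hr two_ne_zero).1 h1

theorem per_q4 (hl : 0 < l) (ha : 0 < a) (hb : 0 < b) :
    per (q4 l s s' a b) = l + a * √(1 + s ^ 2) + b * √(1 + s' ^ 2) +
      √((l - s' * b - s * a) ^ 2 + (b - a) ^ 2) := by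
  have h1 : per (q4 l s s' a b) = ‖q4 l s s' a b (0 + 1) - q4 l s s' a b 0‖ +
      ‖q4 l s s' a b (1 + 1) - q4 l s s' a b 1‖ + ‖q4 l s s' a b (2 + 1) - q4 l s s' a b 2‖ +
      ‖q4 l s s' a b (3 + 1) - q4 l s s' a b 3‖ := Fin.sum_univ_four _
  rw [h1, e0, e1, e2, e3, t0, t1, t2, t3]
  have n0 : ‖(l : ℂ) - 0‖ = l := by
    apply norm_eq_of_sq hl.le
    simp
  have n1 : ‖((l - s' * b : ℝ) : ℂ) + (b : ℂ) * I - l‖ = b * √(1 + s' ^ 2) := by
    apply norm_eq_of_sq (by positivity)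
    rw [mul_pow, Real.sq_sqrt (by positivity)]
    simp
    ring
  have n2 : ‖((s * a : ℝ) : ℂ) + (a : ℂ) * I - (((l - s' * b : ℝ) : ℂ) + (b : ℂ) * I)‖ =
      √((l - s' * b - s * a) ^ 2 + (b - a) ^ 2) := by
    apply norm_eq_of_sq (by positivity)
    rw [Real.sq_sqrt (by positivity)]
    simp
    ring
  have n3 : ‖(0 : ℂ) - (((s * a : ℝ) : ℂ) + (a : ℂ) * I)‖ = a * √(1 + s ^ 2) := by
    apply norm_eq_of_sq (by positivity)
    rw [mul_pow, Real.sq_sqrt (by positivity)]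
    simp
    ring
  rw [n0, n1, n2, n3]
  ring

lemma range_q4 : range (q4 l s s' a b) =
    {0, (l : ℂ), ((l - s' * b : ℝ) : ℂ) + (b : ℂ) * I, ((s * a : ℝ) : ℂ) + (a : ℂ) * I} := by
  ext z
  simp only [mem_range, mem_insert_iff, mem_singleton_iff]
  constructor
  · rintro ⟨j, rfl⟩
    fin_cases j <;> simp [q4]
  · rintro (h1 | h1 | h1 | h1)
    · exact ⟨0, by rw [h1]; rfl⟩
    · exact ⟨1, by rw [h1]; rfl⟩
    · exact ⟨2, by rw [h1]; rfl⟩
    · exact ⟨3, by rw [h1]; rfl⟩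

theorem cong_q4 : ∃ φ : ℂ ≃ᵢ ℂ, φ '' region (q4 l s s' a b) = region (q4 l s' s b a) := by
  refine ⟨Pool.Agent.R225.LP.TZ.rf l, image_region _ _ _ ?_⟩
  rw [range_q4, range_q4, image_insert_eq, image_insert_eq, image_insert_eq, image_singleton]
  have g0 : Pool.Agent.R225.LP.TZ.rf l 0 = l := by rw [Pool.Agent.R225.LP.TZ.rf_apply]; simp
  have g1 : Pool.Agent.R225.LP.TZ.rf l l = 0 := by rw [Pool.Agent.R225.LP.TZ.rf_apply]; simp
  have g2 : Pool.Agent.R225.LP.TZ.rf l (((l - s' * b : ℝ) : ℂ) + (b : ℂ) * I) = ((s' * b : ℝ) : ℂ) + (b : ℂ) * I := by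
    rw [Pool.Agent.R225.LP.TZ.rf_apply]
    apply Complex.ext <;> simp
  have g3 : Pool.Agent.R225.LP.TZ.rf l (((s * a : ℝ) : ℂ) + (a : ℂ) * I) = ((l - s * a : ℝ) : ℂ) + (a : ℂ) * I := by
    rw [Pool.Agent.R225.LP.TZ.rf_apply]
    apply Complex.ext <;> simp
  rw [g0, g1, g2, g3]
  ext z
  simp only [mem_insert_iff, mem_singleton_iff]
  tauto

end

lemma range_four' (p : Fin (1 + 3) → ℂ) (i : Fin (1 + 3)) :
    range p = {p i, p (i + 1), p (i + 1 + 1), p (i + 1 + 1 + 1)} := by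
  ext z
  simp only [mem_range, mem_insert_iff, mem_singleton_iff]
  constructor
  · rintro ⟨j, rfl⟩
    have : j = i ∨ j = i + 1 ∨ j = i + 1 + 1 ∨ j = i + 1 + 1 + 1 := by
      revert i j
      decide
    rcases this with rfl | rfl | rfl | rfl <;> simp
  · rintro (h1 | h1 | h1 | h1)
    · exact ⟨_, h1.symm⟩
    · exact ⟨_, h1.symm⟩
    · exact ⟨_, h1.symm⟩
    · exact ⟨_, h1.symm⟩

/-- the cotangent in terms of the sides -/
lemma sk_eq {p : Fin (1 + 3) → ℂ} (hinj : Function.Injective p) (k : Fin (1 + 3)) :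
    sk (nu p) k = -(ip (p k - p (k - 1)) (p (k + 1) - p k) / cr (p k - p (k - 1)) (p (k + 1) - p k)) := by
  have e : k - 1 + 1 = k := sub_add_cancel k 1
  obtain ⟨h1, h2⟩ := side_eq hinj (k - 1)
  obtain ⟨h3, h4⟩ := side_eq hinj k
  rw [e] at h1 h2
  obtain ⟨r, hr⟩ : ∃ r, r = ‖p k - p (k - 1)‖ := ⟨_, rfl⟩
  obtain ⟨r', hr'⟩ : ∃ r', r' = ‖p (k + 1) - p k‖ := ⟨_, rfl⟩
  rw [← hr] at h1 h2
  rw [← hr'] at h3 h4
  unfold sk
  rw [h2, h4]
  have i1 : ip ((r : ℂ) * (I * nu p (k - 1))) ((r' : ℂ) * (I * nu p k)) = (r * r') * ip (nu p (k - 1)) (nu p k) := by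
    simp only [ip, Complex.mul_re, Complex.mul_im, Complex.ofReal_re, Complex.ofReal_im, Complex.I_re, Complex.I_im]
    ring
  have i2 : cr ((r : ℂ) * (I * nu p (k - 1))) ((r' : ℂ) * (I * nu p k)) = (r * r') * cr (nu p (k - 1)) (nu p k) := by
    simp only [cr, Complex.mul_re, Complex.mul_im, Complex.ofReal_re, Complex.ofReal_im, Complex.I_re, Complex.I_im]
    ring
  rw [i1, i2, mul_div_mul_left _ _ (mul_pos h1 h3).ne']

lemma k_a : ∀ k : Fin (1 + 3), k - 1 = k + 1 + 1 + 1 := by decide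
lemma k_b : ∀ k : Fin (1 + 3), k + 1 + 1 + 1 + 1 = k := by decide
lemma k_c : ∀ k : Fin (1 + 3), k + 1 + 1 + 1 ≠ k := by decide
lemma k_d : ∀ k : Fin (1 + 3), k + 1 + 1 + 1 ≠ k + 1 := by decide

theorem normal_form (p : Fin (1 + 3) → ℂ) (k : Fin (1 + 3)) (hp : IsConvexPolygon p) :
    ∃ a b : ℝ, 0 < a ∧ 0 < b ∧ ∃ φ : ℂ ≃ᵢ ℂ, φ '' region p =
        region (q4 ‖p (k + 1) - p k‖ (sk (nu p) k) (sk (nu p) (k + 1)) a b) := by
  have hinj : Function.Injective p := (Pool.Agent.W174.PG.basic _ p hp).1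
  obtain ⟨h1, h2⟩ := side_eq hinj k
  obtain ⟨l, hl⟩ : ∃ l, l = ‖p (k + 1) - p k‖ := ⟨_, rfl⟩
  rw [← hl] at h1 h2
  obtain ⟨u, hu⟩ : ∃ u, u = nu p k := ⟨_, rfl⟩
  have hn : ‖u‖ = 1 := by rw [hu]; exact norm_nu hinj k
  have hsq := norm_sq_eq_one hn
  rw [← hu] at h2
  have hc : ‖conj (I * u)‖ = 1 := by
    rw [Complex.norm_conj, norm_mul, Complex.norm_I, hn, one_mul]
  obtain ⟨φ, hφ⟩ : ∃ φ, φ = rt (p k) (conj (I * u)) hc := ⟨_, rfl⟩
  have hφa : ∀ z, φ z = (z - p k) * conj (I * u) := fun z => by rw [hφ, rt_apply]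
  have hIu : I * u * conj (I * u) = 1 := by
    rw [Complex.mul_conj, Complex.normSq_eq_norm_sq, norm_mul, Complex.norm_I, hn]
    simp
  have f0 : φ (p k) = 0 := by rw [hφa, sub_self, zero_mul]
  have f1 : φ (p (k + 1)) = l := by
    rw [hφa, h2, mul_assoc, hIu, mul_one]
  have k3 : k - 1 = k + 1 + 1 + 1 := k_a k
  have k0 : k + 1 + 1 + 1 + 1 = k := k_b k
  have k2 : k + 1 - 1 = k := add_sub_cancel_right k 1
  -- real and imaginary parts of the images
  have hre : ∀ z, l * (φ z).re = ip (p (k + 1) - p k) (z - p k) := by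
    intro z
    rw [hφa, h2]
    simp only [ip, Complex.mul_re, Complex.mul_im, Complex.ofReal_re, Complex.ofReal_im, Complex.I_re, Complex.I_im,
      Complex.conj_re, Complex.conj_im, Complex.sub_re, Complex.sub_im]
    ring
  have him : ∀ z, l * (φ z).im = cr (p (k + 1) - p k) (z - p k) := by
    intro z
    rw [hφa, h2]
    simp only [cr, Complex.mul_re, Complex.mul_im, Complex.ofReal_re, Complex.ofReal_im, Complex.I_re, Complex.I_im,
      Complex.conj_re, Complex.conj_im, Complex.sub_re, Complex.sub_im]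
    ring
  obtain ⟨b, hb⟩ : ∃ b, b = (φ (p (k + 1 + 1))).im := ⟨_, rfl⟩
  obtain ⟨a, ha⟩ : ∃ a, a = (φ (p (k + 1 + 1 + 1))).im := ⟨_, rfl⟩
  have hb0 : 0 < b := by
    have h3 := hp.pos k (k + 1 + 1) (ne_succ2 k) (ne_succ (k + 1))
    rw [lft_eq, ← him, ← hb] at h3
    exact (mul_pos_iff_of_pos_left h1).1 h3
  have ha0 : 0 < a := by
    have h3 := hp.pos k (k + 1 + 1 + 1) (k_c k) (k_d k)
    rw [lft_eq, ← him, ← ha] at h3
    exact (mul_pos_iff_of_pos_left h1).1 h3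
  have hs : sk (nu p) k * a = (φ (p (k + 1 + 1 + 1))).re := by
    rw [sk_eq hinj, k3]
    have g1 := hre (p (k + 1 + 1 + 1))
    have g2 := him (p (k + 1 + 1 + 1))
    rw [← ha] at g2
    have e1 : ip (p k - p (k + 1 + 1 + 1)) (p (k + 1) - p k) = -(l * (φ (p (k + 1 + 1 + 1))).re) := by
      rw [g1]; simp only [ip, Complex.sub_re, Complex.sub_im]; ring
    have e2 : cr (p k - p (k + 1 + 1 + 1)) (p (k + 1) - p k) = l * a := by
      rw [g2]; simp only [cr, Complex.sub_re, Complex.sub_im]; ring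
    rw [e1, e2]
    field_simp
  have hs' : l - sk (nu p) (k + 1) * b = (φ (p (k + 1 + 1))).re := by
    rw [sk_eq hinj, k2]
    have g1 := hre (p (k + 1 + 1))
    have g2 := him (p (k + 1 + 1))
    rw [← hb] at g2
    have g3 := hre (p (k + 1))
    have g4 := him (p (k + 1))
    rw [f1, Complex.ofReal_re] at g3
    rw [f1, Complex.ofReal_im, mul_zero] at g4
    have e1 : ip (p (k + 1) - p k) (p (k + 1 + 1) - p (k + 1)) = l * ((φ (p (k + 1 + 1))).re - l) := by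
      rw [mul_sub, g1, g3]; simp only [ip, Complex.sub_re, Complex.sub_im]; ring
    have e2 : cr (p (k + 1) - p k) (p (k + 1 + 1) - p (k + 1)) = l * b := by
      rw [g2]; simp only [cr, Complex.sub_re, Complex.sub_im]; ring
    rw [e1, e2]
    field_simp
    ring
  refine ⟨a, b, ha0, hb0, φ, image_region _ _ _ ?_⟩
  rw [← hl]
  rw [range_four' p k, range_q4, image_insert_eq, image_insert_eq, image_insert_eq, image_singleton, f0, f1, hs, hs', hb, ha]
  rw [Complex.re_add_im, Complex.re_add_im]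

/-- N4: normal form -/
theorem n4 : S_N4 :=
  ⟨fun _ _ _ _ _ hl ha hb hs => ⟨convex_q4 hl ha hb hs, area_q4 hl ha hb hs, per_q4 hl ha hb, cong_q4⟩,
    fun p k hp _ => normal_form p k hp⟩

end Pool.Agent.N96.QD
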