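import Pool.Agent.N96.QD.SW1
import Pool.Agent.W174.PG.Basic
import Pool.Agent.W975.PG.Hull

set_option autoImplicit false

/-!
# QD/SW, part 2: quadrilaterals with two sides on the arms of a wedge
(helper96, for the project of helper275)
-/

namespace Pool.Agent.N96.QD

open MeasureTheory Set Filter Topology Complex ProbabilityTheory
open Pool.Agent.W780.PG (IsConvexPolygon region ang lft reg)
open Pool.Agent.Y289.SQ (Z area per)
open scoped Real ENNReal ComplexConjugate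
open Pool.Agent.R225.LP
open Pool.Agent.R225.LP.FP

/-- a quadrilateral with two sides on the arms of a wedge with vertex `ih / 2` -/
noncomputable def wq (h κ σ r₁ r₂ R₁ R₂ : ℝ) : Fin (1 + 3) → ℂ :=
  ![⟨κ * r₁, h / 2 - σ * r₁⟩, ⟨κ * R₁, h / 2 - σ * R₁⟩, ⟨κ * R₂, h / 2 + σ * R₂⟩,
    ⟨κ * r₂, h / 2 + σ * r₂⟩]

/-- the coordinate along the lower arm -/
noncomputable def uu (h κ σ : ℝ) (z : ℂ) : ℝ := (z.re / κ - (z.im - h / 2) / σ) / 2

/-- the coordinate along the upper arm -/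
noncomputable def vv (h κ σ : ℝ) (z : ℂ) : ℝ := (z.re / κ + (z.im - h / 2) / σ) / 2

section
variable {h κ σ r₁ r₂ R₁ R₂ : ℝ}

lemma w0 : wq h κ σ r₁ r₂ R₁ R₂ 0 = ⟨κ * r₁, h / 2 - σ * r₁⟩ := rfl
lemma w1 : wq h κ σ r₁ r₂ R₁ R₂ 1 = ⟨κ * R₁, h / 2 - σ * R₁⟩ := rfl
lemma w2 : wq h κ σ r₁ r₂ R₁ R₂ 2 = ⟨κ * R₂, h / 2 + σ * R₂⟩ := rfl
lemma w3 : wq h κ σ r₁ r₂ R₁ R₂ 3 = ⟨κ * r₂, h / 2 + σ * r₂⟩ := rfl

lemma f0 : (0 : Fin (1 + 3)) + 1 = 1 := by decide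
lemma f1 : (1 : Fin (1 + 3)) + 1 = 2 := by decide
lemma f2 : (2 : Fin (1 + 3)) + 1 = 3 := by decide
lemma f3 : (3 : Fin (1 + 3)) + 1 = 0 := by decide

lemma u0 (hκ : 0 < κ) (hσ : 0 < σ) (r : ℝ) : uu h κ σ ⟨κ * r, h / 2 - σ * r⟩ = r := by
  unfold uu; field_simp; ring
lemma v0 (hκ : 0 < κ) (hσ : 0 < σ) (r : ℝ) : vv h κ σ ⟨κ * r, h / 2 - σ * r⟩ = 0 := by
  unfold vv; field_simp; ring
lemma u1 (hκ : 0 < κ) (hσ : 0 < σ) (r : ℝ) : uu h κ σ ⟨κ * r, h / 2 + σ * r⟩ = 0 := by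
  unfold uu; field_simp; ring
lemma v1 (hκ : 0 < κ) (hσ : 0 < σ) (r : ℝ) : vv h κ σ ⟨κ * r, h / 2 + σ * r⟩ = r := by
  unfold vv; field_simp; ring

lemma ft0 (hκ : 0 < κ) (hσ : 0 < σ) (z : ℂ) :
    lft (wq h κ σ r₁ r₂ R₁ R₂ 0) (wq h κ σ r₁ r₂ R₁ R₂ 1) z =
      2 * κ * σ * ((R₁ - r₁) * vv h κ σ z) := by
  rw [w0, w1]
  simp only [lft, vv, Complex.mul_im, Complex.conj_re, Complex.conj_im, Complex.sub_re, Complex.sub_im]
  field_simp
  ring

lemma ft1 (hκ : 0 < κ) (hσ : 0 < σ) (z : ℂ) :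
    lft (wq h κ σ r₁ r₂ R₁ R₂ 1) (wq h κ σ r₁ r₂ R₁ R₂ 2) z =
      2 * κ * σ * (R₁ * R₂ - R₂ * uu h κ σ z - R₁ * vv h κ σ z) := by
  rw [w1, w2]
  simp only [lft, uu, vv, Complex.mul_im, Complex.conj_re, Complex.conj_im, Complex.sub_re,
    Complex.sub_im]
  field_simp
  ring

lemma ft2 (hκ : 0 < κ) (hσ : 0 < σ) (z : ℂ) :
    lft (wq h κ σ r₁ r₂ R₁ R₂ 2) (wq h κ σ r₁ r₂ R₁ R₂ 3) z =
      2 * κ * σ * ((R₂ - r₂) * uu h κ σ z) := by
  rw [w2, w3]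
  simp only [lft, uu, Complex.mul_im, Complex.conj_re, Complex.conj_im, Complex.sub_re,
    Complex.sub_im]
  field_simp
  ring

lemma ft3 (hκ : 0 < κ) (hσ : 0 < σ) (z : ℂ) :
    lft (wq h κ σ r₁ r₂ R₁ R₂ 3) (wq h κ σ r₁ r₂ R₁ R₂ 0) z =
      2 * κ * σ * (r₁ * vv h κ σ z + r₂ * uu h κ σ z - r₁ * r₂) := by
  rw [w3, w0]
  simp only [lft, uu, vv, Complex.mul_im, Complex.conj_re, Complex.conj_im, Complex.sub_re,
    Complex.sub_im]
  field_simp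
  ring

theorem convex_wq (hκ : 0 < κ) (hσ : 0 < σ) (h1 : 0 < r₁) (h2 : 0 < r₂) (h3 : r₁ < R₁)
    (h4 : r₂ < R₂) : IsConvexPolygon (wq h κ σ r₁ r₂ R₁ R₂) := by
  have hD : 0 < 2 * κ * σ := by positivity
  have hR1 : 0 < R₁ := h1.trans h3
  have hR2 : 0 < R₂ := h2.trans h4
  constructor
  intro i j h1' h2'
  have hi : i = 0 ∨ i = 1 ∨ i = 2 ∨ i = 3 := by
    fin_cases i <;> simp
  have hj : j = 0 ∨ j = 1 ∨ j = 2 ∨ j = 3 := by
    fin_cases j <;> simp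
  rcases hi with rfl | rfl | rfl | rfl
  · rw [f0, ft0 hκ hσ] at *
    refine mul_pos hD (mul_pos (by linarith) ?_)
    rcases hj with rfl | rfl | rfl | rfl
    · exact absurd rfl h1'
    · exact absurd rfl h2'
    · rw [w2, v1 hκ hσ]; exact hR2
    · rw [w3, v1 hκ hσ]; exact h2
  · rw [f1, ft1 hκ hσ] at *
    refine mul_pos hD ?_
    rcases hj with rfl | rfl | rfl | rfl
    · rw [w0, v0 hκ hσ, u0 hκ hσ]; nlinarith
    · exact absurd rfl h1'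
    · exact absurd rfl h2'
    · rw [w3, v1 hκ hσ, u1 hκ hσ]; nlinarith
  · rw [f2, ft2 hκ hσ] at *
    refine mul_pos hD (mul_pos (by linarith) ?_)
    rcases hj with rfl | rfl | rfl | rfl
    · rw [w0, u0 hκ hσ]; exact h1
    · rw [w1, u0 hκ hσ]; exact hR1
    · exact absurd rfl h1'
    · exact absurd rfl h2'
  · rw [f3, ft3 hκ hσ] at *
    refine mul_pos hD ?_
    rcases hj with rfl | rfl | rfl | rfl
    · exact absurd rfl h2'
    · rw [w1, v0 hκ hσ, u0 hκ hσ]; nlinarith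
    · rw [w2, v1 hκ hσ, u1 hκ hσ]; nlinarith
    · exact absurd rfl h1'

theorem reg_wq (hκ : 0 < κ) (hσ : 0 < σ) (h1 : 0 < r₁) (h2 : 0 < r₂) (h3 : r₁ < R₁)
    (h4 : r₂ < R₂) : region (wq h κ σ r₁ r₂ R₁ R₂) =
      {z | 0 < vv h κ σ z ∧ R₂ * uu h κ σ z + R₁ * vv h κ σ z < R₁ * R₂ ∧ 0 < uu h κ σ z ∧
        r₁ * r₂ < r₁ * vv h κ σ z + r₂ * uu h κ σ z} := by
  have hD : 0 < 2 * κ * σ := by positivity
  have hcp : IsConvexPolygon (wq h κ σ r₁ r₂ R₁ R₂) := convex_wq hκ hσ h1 h2 h3 h4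
  have e1 : region (wq h κ σ r₁ r₂ R₁ R₂) = reg (wq h κ σ r₁ r₂ R₁ R₂) :=
    (Pool.Agent.W975.PG.hull Pool.Agent.W174.PG.basic _ _ hcp).2
  rw [e1]
  ext z
  have e2 : z ∈ reg (wq h κ σ r₁ r₂ R₁ R₂) ↔
      ∀ i, 0 < lft (wq h κ σ r₁ r₂ R₁ R₂ i) (wq h κ σ r₁ r₂ R₁ R₂ (i + 1)) z := Iff.rfl
  rw [e2]
  have h3' : 0 < R₁ - r₁ := by linarith
  have h4' : 0 < R₂ - r₂ := by linarith
  constructor
  · intro g
    have a0 := g 0
    have a1 := g 1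
    have a2 := g 2
    have a3 := g 3
    rw [f0, ft0 hκ hσ] at a0
    rw [f1, ft1 hκ hσ] at a1
    rw [f2, ft2 hκ hσ] at a2
    rw [f3, ft3 hκ hσ] at a3
    rw [mul_pos_iff_of_pos_left hD] at a0 a1 a2 a3
    rw [mul_pos_iff_of_pos_left h3'] at a0
    rw [mul_pos_iff_of_pos_left h4'] at a2
    exact ⟨a0, by linarith, a2, by linarith⟩
  · rintro ⟨a0, a1, a2, a3⟩ i
    have hi : i = 0 ∨ i = 1 ∨ i = 2 ∨ i = 3 := by
      fin_cases i <;> simp
    rcases hi with rfl | rfl | rfl | rfl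
    · rw [f0, ft0 hκ hσ]; positivity
    · rw [f1, ft1 hκ hσ]; exact mul_pos hD (by linarith)
    · rw [f2, ft2 hκ hσ]; positivity
    · rw [f3, ft3 hκ hσ]; exact mul_pos hD (by linarith)

lemma uu_J (z : ℂ) : uu h κ σ (J h z) = vv h κ σ z := by
  unfold uu vv
  rw [J_re, J_im]
  ring

lemma vv_J (z : ℂ) : vv h κ σ (J h z) = uu h κ σ z := by
  unfold uu vv
  rw [J_re, J_im]
  ring

lemma im_uv (hσ : 0 < σ) (z : ℂ) : z.im = h / 2 + σ * (vv h κ σ z - uu h κ σ z) := by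
  unfold uu vv
  field_simp
  ring

/-- the points below the other diagonal -/
def Lw (h κ σ r₁ r₂ : ℝ) : Set ℂ := {z | r₁ * uu h κ σ z + r₂ * vv h κ σ z ≤ r₁ * r₂}

theorem uu_cont (h κ σ : ℝ) : Continuous (uu h κ σ) := by
  unfold uu; fun_prop

theorem vv_cont (h κ σ : ℝ) : Continuous (vv h κ σ) := by
  unfold vv; fun_prop

theorem lw_meas : MeasurableSet (Lw h κ σ r₁ r₂) :=
  (isClosed_le (((uu_cont h κ σ).const_mul r₁).add ((vv_cont h κ σ).const_mul r₂))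
    continuous_const).measurableSet

lemma small_aux (h1 : 0 < r₁) (hr2 : 0 < r₂) (h3 : r₂ < R₂) (h5 : r₁ < R₂) (h4 : R₂ < R₁) {x y : ℝ}
    (hu : 0 < x) (hv : 0 < y) (hL : r₁ * x + r₂ * y ≤ r₁ * r₂) :
    R₁ * x + R₂ * y < R₁ * R₂ ∧ R₂ * x + R₁ * y < R₁ * R₂ := by
  have hR2 : 0 < R₂ := hr2.trans h3
  have hR1 : 0 < R₁ := hR2.trans h4
  have e1 : x / r₂ + y / r₁ ≤ 1 := by
    rw [div_add_div _ _ hr2.ne' h1.ne', div_le_one (by positivity)]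
    linarith
  have b1 : x / R₂ < x / r₂ := div_lt_div_of_pos_left hu hr2 h3
  have b2 : y / R₁ < y / r₁ := div_lt_div_of_pos_left hv h1 (by linarith)
  have b3 : x / R₁ < x / r₂ := div_lt_div_of_pos_left hu hr2 (by linarith)
  have b4 : y / R₂ < y / r₁ := div_lt_div_of_pos_left hv h1 (by linarith)
  refine ⟨?_, ?_⟩
  · have : x / R₂ + y / R₁ < 1 := by linarith
    rw [div_add_div _ _ hR2.ne' hR1.ne', div_lt_one (by positivity)] at this
    linarith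
  · have : x / R₁ + y / R₂ < 1 := by linarith
    rw [div_add_div _ _ hR1.ne' hR2.ne', div_lt_one (by positivity)] at this
    linarith

/-- the reflection principle applies to the two quadrilaterals -/
theorem as_wq (hκ : 0 < κ) (hσ : 0 < σ) (hσ1 : σ ≤ 1) (h1 : 0 < r₁) (h2 : r₁ < r₂) (h3 : r₂ < R₂)
    (h4 : R₂ < R₁) (hh : h = 2 * (R₁ + R₂)) :
    As h (region (wq h κ σ r₁ r₂ R₁ R₂)) (region (wq h κ σ r₁ r₂ R₂ R₁)) (Lw h κ σ r₁ r₂) := by
  have hr2 : 0 < r₂ := h1.trans h2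
  have hR2 : 0 < R₂ := hr2.trans h3
  have hR1 : 0 < R₁ := hR2.trans h4
  have hh0 : 0 < h := by rw [hh]; positivity
  rw [reg_wq hκ hσ h1 hr2 (by linarith) h3, reg_wq hκ hσ h1 hr2 (by linarith) (by linarith)]
  have key : ∀ z : ℂ, 0 < vv h κ σ z → 0 < uu h κ σ z → uu h κ σ z < R₁ → vv h κ σ z < R₁ →
      0 < z.im ∧ z.im < h := by
    intro z hv hu hu' hv'
    rw [im_uv (h := h) (κ := κ) hσ z]
    have q1 : σ * vv h κ σ z ≤ vv h κ σ z := mul_le_of_le_one_left hv.le hσ1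
    have q2 : σ * uu h κ σ z ≤ uu h κ σ z := mul_le_of_le_one_left hu.le hσ1
    have q3 : 0 < σ * vv h κ σ z := by positivity
    have q4 : 0 < σ * uu h κ σ z := by positivity
    rw [hh] at *
    constructor <;> nlinarith
  have low : ∀ z : ℂ, z.im ≤ h / 2 → vv h κ σ z ≤ uu h κ σ z := by
    intro z hz
    rw [im_uv (h := h) (κ := κ) hσ z] at hz
    have : σ * (vv h κ σ z - uu h κ σ z) ≤ 0 := by linarith
    by_contra hcon
    push Not at hcon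
    have := mul_pos hσ (sub_pos.2 hcon)
    linarith
  refine ⟨hh0, ?_, ?_, ?_, ?_, ?_⟩
  · rintro z ⟨a0, a1, a2, a3⟩
    refine key z a0 a2 ?_ ?_
    · by_contra hcon
      push Not at hcon
      nlinarith [mul_le_mul_of_nonneg_left hcon hR2.le, mul_pos hR1 a0]
    · by_contra hcon
      push Not at hcon
      nlinarith [mul_le_mul_of_nonneg_left hcon hR1.le, mul_pos hR2 a2, mul_pos hR1 hR1]
  · rintro z ⟨a0, a1, a2, a3⟩
    refine key z a0 a2 ?_ ?_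
    · by_contra hcon
      push Not at hcon
      nlinarith [mul_le_mul_of_nonneg_left hcon hR1.le, mul_pos hR2 a0, mul_pos hR1 hR1]
    · by_contra hcon
      push Not at hcon
      nlinarith [mul_le_mul_of_nonneg_left hcon hR2.le, mul_pos hR1 a2]
  · rintro z - hz ⟨a0, a1, a2, a3⟩
    rw [uu_J, vv_J] at *
    have hl := low z hz
    refine ⟨a2, ?_, a0, ?_⟩
    · nlinarith
    · nlinarith
  · intro z hz0 hz hL
    have hL' : r₁ * uu h κ σ z + r₂ * vv h κ σ z ≤ r₁ * r₂ := hL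
    have small := fun (hv : 0 < vv h κ σ z) (hu : 0 < uu h κ σ z) =>
      small_aux h1 hr2 h3 (h2.trans h3) h4 hu hv hL'
    constructor
    · constructor
      · rintro ⟨a0, a1, a2, a3⟩
        exact ⟨a0, (small a0 a2).2, a2, a3⟩
      · rintro ⟨a0, a1, a2, a3⟩
        refine ⟨a0, ?_, a2, a3⟩
        have := (small a0 a2).1
        linarith
    · constructor
      · rintro ⟨a0, a1, a2, a3⟩
        rw [uu_J, vv_J] at a3
        exact absurd hL' (by linarith)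
      · rintro ⟨a0, a1, a2, a3⟩
        rw [uu_J, vv_J] at a3
        exact absurd hL' (by linarith)
  · intro z hz0 hz hL
    have hL' : r₁ * r₂ < r₁ * uu h κ σ z + r₂ * vv h κ σ z := not_le.1 hL
    have hl := low z hz
    have hB : r₁ * r₂ < r₁ * vv h κ σ z + r₂ * uu h κ σ z := by nlinarith
    constructor
    · constructor
      · rintro ⟨a0, a1, a2, a3⟩
        refine ⟨?_, ?_, ?_, ?_⟩
        · rw [vv_J]; exact a2
        · rw [uu_J, vv_J]; linarith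
        · rw [uu_J]; exact a0
        · rw [uu_J, vv_J]; exact hL'
      · rintro ⟨a0, a1, a2, a3⟩
        rw [uu_J, vv_J] at *
        refine ⟨a2, by linarith, a0, hB⟩
    · constructor
      · rintro ⟨a0, a1, a2, a3⟩
        rw [uu_J, vv_J] at *
        refine ⟨a2, by linarith, a0, hB⟩
      · rintro ⟨a0, a1, a2, a3⟩
        refine ⟨?_, ?_, ?_, ?_⟩
        · rw [vv_J]; exact a2
        · rw [uu_J, vv_J]; linarith
        · rw [uu_J]; exact a0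
        · rw [uu_J, vv_J]; exact hL'

lemma dev (hκ : 0 < κ) (hσ : 0 < σ) {δ τ : ℝ} (hδ : δ = τ / (1 / κ + 1 / σ)) {w x : ℂ}
    (hwx : ‖w - x‖ ≤ 2 * δ) : |uu h κ σ w - uu h κ σ x| ≤ τ ∧ |vv h κ σ w - vv h κ σ x| ≤ τ := by
  have h1 := (Complex.abs_re_le_norm (w - x)).trans hwx
  have h2 := (Complex.abs_im_le_norm (w - x)).trans hwx
  rw [Complex.sub_re] at h1
  rw [Complex.sub_im] at h2
  have hc : 0 < 1 / κ + 1 / σ := by positivity
  have hδ' : (1 / κ + 1 / σ) * δ = τ := by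
    rw [hδ, mul_div_cancel₀ _ hc.ne']
  have g1 : |(w.re - x.re) / κ| ≤ 2 * δ * (1 / κ) := by
    rw [abs_div, abs_of_pos hκ, div_eq_mul_one_div]
    exact mul_le_mul_of_nonneg_right h1 (by positivity)
  have g2 : |(w.im - x.im) / σ| ≤ 2 * δ * (1 / σ) := by
    rw [abs_div, abs_of_pos hσ, div_eq_mul_one_div]
    exact mul_le_mul_of_nonneg_right h2 (by positivity)
  have e1 : uu h κ σ w - uu h κ σ x = ((w.re - x.re) / κ - (w.im - x.im) / σ) / 2 := by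
    unfold uu; ring
  have e2 : vv h κ σ w - vv h κ σ x = ((w.re - x.re) / κ + (w.im - x.im) / σ) / 2 := by
    unfold vv; ring
  rw [e1, e2]
  rw [abs_le] at g1 g2
  constructor
  · rw [abs_le]; constructor <;> nlinarith
  · rw [abs_le]; constructor <;> nlinarith

/-- the point with given coordinates -/
noncomputable def pt (h κ σ u v : ℝ) : ℂ := ⟨κ * (u + v), h / 2 + σ * (v - u)⟩

lemma uu_pt (hκ : 0 < κ) (hσ : 0 < σ) (u v : ℝ) : uu h κ σ (pt h κ σ u v) = u := by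
  unfold uu pt; field_simp; ring

lemma vv_pt (hκ : 0 < κ) (hσ : 0 < σ) (u v : ℝ) : vv h κ σ (pt h κ σ u v) = v := by
  unfold vv pt; field_simp; ring

lemma seg_pt (hκ : 0 < κ) (hσ : 0 < σ) {u u' v : ℝ} (huu : u ≤ u') {x : ℂ}
    (hx : x ∈ segment ℝ (pt h κ σ u v) (pt h κ σ u' v)) :
    u ≤ uu h κ σ x ∧ uu h κ σ x ≤ u' ∧ vv h κ σ x = v := by
  rw [segment_eq_image] at hx
  obtain ⟨θ, ⟨h0, h1⟩, rfl⟩ := hx
  have e1 : uu h κ σ ((1 - θ) • pt h κ σ u v + θ • pt h κ σ u' v) = (1 - θ) * u + θ * u' := by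
    unfold uu pt
    simp
    field_simp
    ring
  have e2 : vv h κ σ ((1 - θ) • pt h κ σ u v + θ • pt h κ σ u' v) = v := by
    unfold vv pt
    simp
    field_simp
    ring
  rw [e1, e2]
  refine ⟨?_, ?_, rfl⟩
  · nlinarith
  · nlinarith

theorem gd_wq (hκ : 0 < κ) (hσ : 0 < σ) (h1 : 0 < r₁) (h2 : r₁ < r₂) (h3 : r₂ < R₂)
    (h4 : R₂ < R₁) : ∃ (η δ : ℝ) (z₁ z₂ : ℂ),
    Gd h η δ (region (wq h κ σ r₁ r₂ R₁ R₂)) (Lw h κ σ r₁ r₂) z₁ z₂ := by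
  have hr2 : 0 < r₂ := h1.trans h2
  have hR2 : 0 < R₂ := hr2.trans h3
  have hR1 : 0 < R₁ := hR2.trans h4
  obtain ⟨ε, hε0, hε1, hε2, hε3, hε4, hε5⟩ : ∃ ε : ℝ, 0 < ε ∧ ε ≤ R₂ * (R₁ - R₂) / (8 * R₁) ∧
      ε ≤ r₁ / 4 ∧ ε ≤ r₁ * (r₂ - r₁) / (4 * r₂) ∧ ε ≤ (r₂ - r₁) / 4 ∧ ε ≤ (R₁ - R₂) / 4 := by
    have k1 : 0 < R₂ * (R₁ - R₂) / (8 * R₁) := by
      have : 0 < R₁ - R₂ := by linarith
      positivity
    have k2 : 0 < r₁ / 4 := by positivity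
    have k3 : 0 < r₁ * (r₂ - r₁) / (4 * r₂) := by
      have : 0 < r₂ - r₁ := by linarith
      positivity
    have k4 : 0 < (r₂ - r₁) / 4 := by linarith
    have k5 : 0 < (R₁ - R₂) / 4 := by linarith
    refine ⟨min (R₂ * (R₁ - R₂) / (8 * R₁)) (min (r₁ / 4) (min (r₁ * (r₂ - r₁) / (4 * r₂))
      (min ((r₂ - r₁) / 4) ((R₁ - R₂) / 4)))), ?_, ?_, ?_, ?_, ?_, ?_⟩
    · exact lt_min k1 (lt_min k2 (lt_min k3 (lt_min k4 k5)))
    · exact min_le_left _ _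
    · exact (min_le_right _ _).trans (min_le_left _ _)
    · exact (min_le_right _ _).trans ((min_le_right _ _).trans (min_le_left _ _))
    · exact (min_le_right _ _).trans ((min_le_right _ _).trans ((min_le_right _ _).trans
        (min_le_left _ _)))
    · exact (min_le_right _ _).trans ((min_le_right _ _).trans ((min_le_right _ _).trans
        (min_le_right _ _)))
  rw [le_div_iff₀ (by positivity)] at hε1 hε3
  have hc : 0 < 1 / κ + 1 / σ := by positivity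
  rw [reg_wq hκ hσ h1 hr2 (by linarith) h3]
  refine ⟨σ * r₁, (ε / 2) / (1 / κ + 1 / σ), pt h κ σ ((r₁ + r₂) / 2) ε, pt h κ σ ((R₁ + R₂) / 2) ε,
    by positivity, by positivity, ?_, ?_, ?_⟩
  · intro w x hx hwx
    obtain ⟨s1, s2, s3⟩ := seg_pt hκ hσ (by linarith) hx
    obtain ⟨d1, d2⟩ := dev (h := h) hκ hσ rfl hwx
    rw [abs_le] at d1 d2
    rw [s3] at d2
    obtain ⟨u, hu⟩ : ∃ u, u = uu h κ σ w := ⟨_, rfl⟩
    obtain ⟨v, hv⟩ : ∃ v, v = vv h κ σ w := ⟨_, rfl⟩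
    have him := im_uv (h := h) (κ := κ) hσ w
    rw [← hu, ← hv] at him
    rw [← hu] at d1
    rw [← hv] at d2
    have b1 : (r₁ + r₂) / 2 - ε / 2 ≤ u := by linarith
    have b2 : u ≤ (R₁ + R₂) / 2 + ε / 2 := by linarith
    have b3 : ε / 2 ≤ v := by linarith
    have b4 : v ≤ 3 * ε / 2 := by linarith
    constructor
    · change 0 < vv h κ σ w ∧ R₂ * uu h κ σ w + R₁ * vv h κ σ w < R₁ * R₂ ∧ 0 < uu h κ σ w ∧
        r₁ * r₂ < r₁ * vv h κ σ w + r₂ * uu h κ σ w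
      rw [← hu, ← hv]
      refine ⟨by linarith, ?_, by linarith, ?_⟩
      · have g1 := mul_le_mul_of_nonneg_left b2 hR2.le
        have g2 := mul_le_mul_of_nonneg_left b4 hR1.le
        have g3 : R₂ * ε ≤ R₁ * ε := mul_le_mul_of_nonneg_right h4.le hε0.le
        have g4 : 0 < R₂ * (R₁ - R₂) := mul_pos hR2 (by linarith)
        nlinarith
      · have g1 := mul_le_mul_of_nonneg_left b1 hr2.le
        have g2 := mul_le_mul_of_nonneg_left b3 h1.le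
        have g3 : 0 < r₁ * ε := by positivity
        have g4 : r₂ * ε ≤ r₂ * ((r₂ - r₁) / 4) := mul_le_mul_of_nonneg_left hε4 hr2.le
        have g5 : 0 < r₂ * (r₂ - r₁) := mul_pos hr2 (by linarith)
        nlinarith
    · rw [him]
      have : r₁ ≤ 2 * (u - v) := by linarith
      nlinarith [mul_le_mul_of_nonneg_left this hσ.le]
  · intro w hw
    obtain ⟨d1, d2⟩ := dev (h := h) hκ hσ rfl hw
    rw [uu_pt hκ hσ] at d1
    rw [vv_pt hκ hσ] at d2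
    rw [abs_le] at d1 d2
    obtain ⟨u, hu⟩ : ∃ u, u = uu h κ σ w := ⟨_, rfl⟩
    obtain ⟨v, hv⟩ : ∃ v, v = vv h κ σ w := ⟨_, rfl⟩
    have hL : r₁ * uu h κ σ w + r₂ * vv h κ σ w ≤ r₁ * r₂ := by
      rw [← hu] at d1
      rw [← hv] at d2
      rw [← hu, ← hv]
      have b1 : u ≤ (r₁ + r₂) / 2 + ε / 2 := by linarith
      have b2 : v ≤ 3 * ε / 2 := by linarith
      have g1 := mul_le_mul_of_nonneg_left b1 h1.le
      have g2 := mul_le_mul_of_nonneg_left b2 hr2.le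
      have g3 : r₁ * ε ≤ r₂ * ε := mul_le_mul_of_nonneg_right h2.le hε0.le
      nlinarith
    refine ⟨hL, ?_⟩
    rintro ⟨a0, a1, a2, a3⟩
    rw [uu_J, vv_J] at a3
    linarith
  · intro w hw
    obtain ⟨d1, d2⟩ := dev (h := h) hκ hσ rfl hw
    rw [uu_pt hκ hσ] at d1
    rw [vv_pt hκ hσ] at d2
    rw [abs_le] at d1 d2
    obtain ⟨u, hu⟩ : ∃ u, u = uu h κ σ w := ⟨_, rfl⟩
    obtain ⟨v, hv⟩ : ∃ v, v = vv h κ σ w := ⟨_, rfl⟩
    rw [← hu] at d1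
    rw [← hv] at d2
    have b1 : R₂ < u := by linarith
    have b2 : 0 < v := by linarith
    constructor
    · intro hL
      have hL' : r₁ * uu h κ σ w + r₂ * vv h κ σ w ≤ r₁ * r₂ := hL
      rw [← hu, ← hv] at hL'
      have g1 : r₁ * R₂ < r₁ * u := mul_lt_mul_of_pos_left b1 h1
      have g2 : r₁ * r₂ < r₁ * R₂ := mul_lt_mul_of_pos_left h3 h1
      have g3 : 0 < r₂ * v := by positivity
      linarith
    · rintro ⟨a0, a1, a2, a3⟩
      rw [uu_J, vv_J, ← hu, ← hv] at a1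
      have g1 : R₁ * R₂ < R₁ * u := mul_lt_mul_of_pos_left b1 hR1
      have g2 : 0 < R₂ * v := by positivity
      linarith

theorem strict_wq (hTR : S_TR) (hTB : S_TB) (hκ : 0 < κ) (hσ : 0 < σ) (hσ1 : σ ≤ 1) (h1 : 0 < r₁)
    (h2 : r₁ < r₂) (h3 : r₂ < R₂) (h4 : R₂ < R₁) (hh : h = 2 * (R₁ + R₂)) :
    ∃ t : ℝ, 0 < t ∧
      Z (region (wq h κ σ r₁ r₂ R₂ R₁)) t < Z (region (wq h κ σ r₁ r₂ R₁ R₂)) t := by
  obtain ⟨η, δ, z₁, z₂, hG⟩ := gd_wq (h := h) hκ hσ h1 h2 h3 h4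
  exact strict hTR hTB (convex_wq hκ hσ h1 (by linarith) (by linarith) h3)
    (convex_wq hκ hσ h1 (by linarith) (by linarith) (by linarith))
    (as_wq hκ hσ hσ1 h1 h2 h3 h4 hh) lw_meas hG

end

end Pool.Agent.N96.QD
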