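import Pool.Agent.N275.QD.Def
import Pool.Agent.N96.QD.SW2
import Pool.Agent.R225.LP.NF
import Pool.Agent.W440.GP.PI

set_option autoImplicit false

/-!
# QD/SW: exchanging one end of a wedge changes the heat trace
(helper96, for the project of helper275)
-/

namespace Pool.Agent.N96.QD

open MeasureTheory Set Filter Topology Complex
open Pool.Agent.W780.PG (IsConvexPolygon region ang lft reg)
open Pool.Agent.Y289.SQ (Z area per)
open scoped Real ENNReal ComplexConjugate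
open Pool.Agent.R225.LP
open Pool.Agent.R225.LP.FP
open Pool.Agent.R225.LP.NF
open Pool.Agent.N275.QD

theorem Z_congr {A B : Set ℂ} (h : ∃ φ : ℂ ≃ᵢ ℂ, φ '' A = B) (t : ℝ) : Z A t = Z B t := by
  obtain ⟨φ, rfl⟩ := h
  unfold Z
  refine tsum_congr fun k => ?_
  rw [Pool.Agent.W440.GP.t_PI.1 φ A (k + 1)]

theorem range_wq (h κ σ r₁ r₂ R₁ R₂ : ℝ) : range (wq h κ σ r₁ r₂ R₁ R₂) =
    {⟨κ * r₁, h / 2 - σ * r₁⟩, ⟨κ * R₁, h / 2 - σ * R₁⟩, ⟨κ * R₂, h / 2 + σ * R₂⟩,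
      ⟨κ * r₂, h / 2 + σ * r₂⟩} := by
  ext z
  simp only [mem_range, mem_insert_iff, mem_singleton_iff]
  constructor
  · rintro ⟨j, rfl⟩
    fin_cases j <;> simp [wq]
  · rintro (h1 | h1 | h1 | h1)
    · exact ⟨0, by rw [h1]; rfl⟩
    · exact ⟨1, by rw [h1]; rfl⟩
    · exact ⟨2, by rw [h1]; rfl⟩
    · exact ⟨3, by rw [h1]; rfl⟩

/-- the reflection -/
noncomputable def Je (h : ℝ) : ℂ ≃ᵢ ℂ :=
  Complex.conjLIE.toIsometryEquiv.trans (IsometryEquiv.addRight ((h : ℂ) * I))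

theorem Je_apply (h : ℝ) (z : ℂ) : Je h z = J h z := rfl

theorem swap_wq (h κ σ r₁ r₂ R₁ R₂ : ℝ) :
    ∃ φ : ℂ ≃ᵢ ℂ, φ '' region (wq h κ σ r₁ r₂ R₁ R₂) = region (wq h κ σ r₂ r₁ R₂ R₁) := by
  refine ⟨Je h, image_region _ _ _ ?_⟩
  rw [range_wq, range_wq, image_insert_eq, image_insert_eq, image_insert_eq, image_singleton]
  have g : ∀ x y : ℝ, Je h ⟨x, y⟩ = ⟨x, h - y⟩ := by
    intro x y
    rw [Je_apply]
    apply Complex.ext
    · rw [J_re]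
    · rw [J_im]
  rw [g, g, g, g]
  have e1 : h - (h / 2 - σ * r₁) = h / 2 + σ * r₁ := by ring
  have e2 : h - (h / 2 - σ * R₁) = h / 2 + σ * R₁ := by ring
  have e3 : h - (h / 2 + σ * R₂) = h / 2 - σ * R₂ := by ring
  have e4 : h - (h / 2 + σ * r₂) = h / 2 - σ * r₂ := by ring
  rw [e1, e2, e3, e4]
  ext z
  simp only [mem_insert_iff, mem_singleton_iff]
  tauto

/-- the two arms -/
theorem arms {s s' : ℝ} (hs : s + s' < 0) : ∃ κ σ : ℝ, 0 < κ ∧ 0 < σ ∧ σ ≤ 1 ∧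
    κ ^ 2 + σ ^ 2 = 1 ∧ (κ ^ 2 - σ ^ 2) * (√(1 + s ^ 2) * √(1 + s' ^ 2)) = 1 - s * s' ∧
    2 * κ * σ * (√(1 + s ^ 2) * √(1 + s' ^ 2)) = -(s + s') := by
  have hm : 0 < √(1 + s ^ 2) := Real.sqrt_pos.2 (by positivity)
  have hm' : 0 < √(1 + s' ^ 2) := Real.sqrt_pos.2 (by positivity)
  have hsq : √(1 + s ^ 2) ^ 2 = 1 + s ^ 2 := Real.sq_sqrt (by positivity)
  have hsq' : √(1 + s' ^ 2) ^ 2 = 1 + s' ^ 2 := Real.sq_sqrt (by positivity)
  obtain ⟨m, hmd⟩ : ∃ m, m = √(1 + s ^ 2) * √(1 + s' ^ 2) := ⟨_, rfl⟩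
  have hm0 : 0 < m := by rw [hmd]; positivity
  have hm2 : m ^ 2 = (1 - s * s') ^ 2 + (s + s') ^ 2 := by
    rw [hmd, mul_pow, hsq, hsq']; ring
  rw [← hmd]
  obtain ⟨p, hp⟩ : ∃ p, p = (1 - s * s') / m := ⟨_, rfl⟩
  obtain ⟨q, hq⟩ : ∃ q, q = -(s + s') / m := ⟨_, rfl⟩
  have hq0 : 0 < q := by rw [hq]; exact div_pos (by linarith) hm0
  have hpm : p * m = 1 - s * s' := by rw [hp]; field_simp
  have hqm : q * m = -(s + s') := by rw [hq]; field_simp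
  have hpq : p ^ 2 + q ^ 2 = 1 := by
    have : (p ^ 2 + q ^ 2) * m ^ 2 = m ^ 2 := by
      calc (p ^ 2 + q ^ 2) * m ^ 2 = (p * m) ^ 2 + (q * m) ^ 2 := by ring
        _ = m ^ 2 := by rw [hpm, hqm, hm2]; ring
    exact mul_right_cancel₀ (pow_pos hm0 2).ne' (by rw [this, one_mul])
  have hp1 : p < 1 := by nlinarith
  have hp2 : -1 < p := by nlinarith
  have hκ2 : √((1 + p) / 2) ^ 2 = (1 + p) / 2 := Real.sq_sqrt (by linarith)
  have hσ2 : √((1 - p) / 2) ^ 2 = (1 - p) / 2 := Real.sq_sqrt (by linarith)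
  have hκ0 : 0 < √((1 + p) / 2) := Real.sqrt_pos.2 (by linarith)
  have hσ0 : 0 < √((1 - p) / 2) := Real.sqrt_pos.2 (by linarith)
  have hκσ : √((1 + p) / 2) * √((1 - p) / 2) = q / 2 := by
    have h1 : (√((1 + p) / 2) * √((1 - p) / 2)) ^ 2 = (q / 2) ^ 2 := by
      rw [mul_pow, hκ2, hσ2, div_pow]
      nlinarith
    exact (pow_left_inj₀ (by positivity) (by positivity) two_ne_zero).1 h1
  refine ⟨√((1 + p) / 2), √((1 - p) / 2), hκ0, hσ0, ?_, ?_, ?_, ?_⟩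
  · nlinarith
  · rw [hκ2, hσ2]; ring
  · rw [hκ2, hσ2, ← hpm]; ring
  · rw [← hqm, mul_assoc 2, hκσ]; ring

/-- quadrilaterals in the two normal forms -/
theorem q4_wq {l s s' : ℝ} (hs : s + s' < 0) : ∃ κ σ : ℝ, 0 < κ ∧ 0 < σ ∧ σ ≤ 1 ∧
    ∀ a b h : ℝ, ∃ φ : ℂ ≃ᵢ ℂ, φ '' region (q4 l s s' a b) =
      region (wq h κ σ (-(l / (s + s')) * √(1 + s' ^ 2)) (-(l / (s + s')) * √(1 + s ^ 2))
        ((b - l / (s + s')) * √(1 + s' ^ 2)) ((a - l / (s + s')) * √(1 + s ^ 2))) := by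
  obtain ⟨κ, σ, hκ, hσ, hσ1, h1, h2, h3⟩ := arms hs
  refine ⟨κ, σ, hκ, hσ, hσ1, fun a b h => ?_⟩
  have hm : 0 < √(1 + s ^ 2) := Real.sqrt_pos.2 (by positivity)
  have hm' : 0 < √(1 + s' ^ 2) := Real.sqrt_pos.2 (by positivity)
  have hsq : √(1 + s ^ 2) ^ 2 = 1 + s ^ 2 := Real.sq_sqrt (by positivity)
  have hsq' : √(1 + s' ^ 2) ^ 2 = 1 + s' ^ 2 := Real.sq_sqrt (by positivity)
  obtain ⟨m, hmd⟩ : ∃ m, m = √(1 + s ^ 2) := ⟨_, rfl⟩
  obtain ⟨m', hmd'⟩ : ∃ m', m' = √(1 + s' ^ 2) := ⟨_, rfl⟩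
  rw [← hmd] at hm hsq h2 h3 ⊢
  rw [← hmd'] at hm' hsq' h2 h3 ⊢
  obtain ⟨y₀, hy₀⟩ : ∃ y₀, y₀ = l / (s + s') := ⟨_, rfl⟩
  have hl : l = y₀ * (s + s') := by rw [hy₀, div_mul_cancel₀ _ hs.ne]
  rw [← hy₀]
  -- the rotation
  obtain ⟨c, hc⟩ : ∃ c : ℂ, c = ⟨(-(κ * s') - σ) / m', (σ * s' - κ) / m'⟩ := ⟨_, rfl⟩
  have hcre : c.re = (-(κ * s') - σ) / m' := by rw [hc]
  have hcim : c.im = (σ * s' - κ) / m' := by rw [hc]
  have hcn : ‖c‖ = 1 := by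
    have h4 : ‖c‖ ^ 2 = 1 := by
      rw [Complex.sq_norm, Complex.normSq_apply, hcre, hcim]
      field_simp
      linear_combination (1 + s' ^ 2) * h1 - hsq'
    exact (pow_left_inj₀ (norm_nonneg _) zero_le_one two_ne_zero).1 (by rw [h4, one_pow])
  have eR : c * ⟨-s', 1⟩ = ⟨κ * m', -(σ * m')⟩ := by
    apply Complex.ext
    · simp only [Complex.mul_re, hcre, hcim]
      field_simp
      linear_combination (-κ) * hsq'
    · simp only [Complex.mul_im, hcre, hcim]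
      field_simp
      linear_combination (σ) * hsq'
  have eL : c * ⟨s, 1⟩ = ⟨κ * m, σ * m⟩ := by
    apply Complex.ext
    · simp only [Complex.mul_re, hcre, hcim]
      field_simp
      linear_combination (-κ) * h2 - σ * h3 + κ * (m * m') * h1
    · simp only [Complex.mul_im, hcre, hcim]
      field_simp
      linear_combination σ * h2 - κ * h3 + σ * (m * m') * h1
  refine ⟨(rt ⟨s * y₀, y₀⟩ c hcn).trans (IsometryEquiv.addRight ⟨0, h / 2⟩), image_region _ _ _ ?_⟩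
  have hφ : ∀ z, (rt ⟨s * y₀, y₀⟩ c hcn).trans (IsometryEquiv.addRight ⟨0, h / 2⟩) z =
      (z - ⟨s * y₀, y₀⟩) * c + ⟨0, h / 2⟩ := by
    intro z
    rw [IsometryEquiv.trans_apply, rt_apply]
    rfl
  have key1 : ∀ r : ℝ, ((r : ℂ) * ⟨-s', 1⟩) * c + ⟨0, h / 2⟩ =
      (⟨κ * (r * m'), h / 2 - σ * (r * m')⟩ : ℂ) := by
    intro r
    rw [mul_assoc, mul_comm _ c, eR]
    apply Complex.ext
    · simp; ring
    · simp; ring
  have key2 : ∀ r : ℝ, ((r : ℂ) * ⟨s, 1⟩) * c + ⟨0, h / 2⟩ =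
      (⟨κ * (r * m), h / 2 + σ * (r * m)⟩ : ℂ) := by
    intro r
    rw [mul_assoc, mul_comm _ c, eL]
    apply Complex.ext
    · simp; ring
    · simp; ring
  have hrange : range (q4 l s s' a b) =
      {0, (l : ℂ), ((l - s' * b : ℝ) : ℂ) + (b : ℂ) * I, ((s * a : ℝ) : ℂ) + (a : ℂ) * I} := by
    ext z
    simp only [mem_range, mem_insert_iff, mem_singleton_iff]
    constructor
    · rintro ⟨j, rfl⟩
      fin_cases j <;> simp [q4]
    · rintro (h1 | h1 | h1 | h1)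
      · exact ⟨0, by rw [h1]; rfl⟩
      · exact ⟨1, by rw [h1]; rfl⟩
      · exact ⟨2, by rw [h1]; rfl⟩
      · exact ⟨3, by rw [h1]; rfl⟩
  rw [hrange, range_wq, image_insert_eq, image_insert_eq, image_insert_eq, image_singleton]
  simp only [hφ]
  have g0 : (0 : ℂ) - ⟨s * y₀, y₀⟩ = ((-y₀ : ℝ) : ℂ) * ⟨s, 1⟩ := by
    apply Complex.ext
    · simp; ring
    · simp
  have g1 : (l : ℂ) - ⟨s * y₀, y₀⟩ = ((-y₀ : ℝ) : ℂ) * ⟨-s', 1⟩ := by
    apply Complex.ext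
    · simp; linear_combination hl
    · simp
  have g2 : ((l - s' * b : ℝ) : ℂ) + (b : ℂ) * I - ⟨s * y₀, y₀⟩ = ((b - y₀ : ℝ) : ℂ) * ⟨-s', 1⟩ := by
    apply Complex.ext
    · simp; linear_combination hl
    · simp
  have g3 : ((s * a : ℝ) : ℂ) + (a : ℂ) * I - ⟨s * y₀, y₀⟩ = ((a - y₀ : ℝ) : ℂ) * ⟨s, 1⟩ := by
    apply Complex.ext
    · simp; ring
    · simp
  rw [g0, g1, g2, g3, key1, key1, key2, key2]
  ext z
  simp only [mem_insert_iff, mem_singleton_iff]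
  tauto

/-- the exchange of the two ends -/
theorem ne_wq (hTR : S_TR) (hTB : S_TB) {κ σ r r' R R' : ℝ} (hκ : 0 < κ) (hσ : 0 < σ)
    (hσ1 : σ ≤ 1) (h1 : 0 < r) (h2 : 0 < r') (hr : r ≠ r') (h3 : r < R) (h4 : r' < R')
    (h5 : r < R') (h6 : r' < R) (hR : R ≠ R') : ∃ t : ℝ, 0 < t ∧
      Z (region (wq (2 * (R + R')) κ σ r r' R R')) t ≠
        Z (region (wq (2 * (R + R')) κ σ r r' R' R)) t := by
  rcases lt_or_gt_of_ne hr with g | g
  · rcases lt_or_gt_of_ne hR with g' | g'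
    · -- `R < R'`
      obtain ⟨t, ht, hlt⟩ := strict_wq (h := 2 * (R + R')) hTR hTB hκ hσ hσ1 h1 g h6 g' (by ring)
      exact ⟨t, ht, hlt.ne⟩
    · obtain ⟨t, ht, hlt⟩ := strict_wq (h := 2 * (R + R')) hTR hTB hκ hσ hσ1 h1 g h4 g' (by ring)
      exact ⟨t, ht, hlt.ne'⟩
  · rcases lt_or_gt_of_ne hR with g' | g'
    · obtain ⟨t, ht, hlt⟩ := strict_wq (h := 2 * (R + R')) hTR hTB hκ hσ hσ1 h2 g h3 g' (by ring)
      refine ⟨t, ht, ?_⟩
      rw [Z_congr (swap_wq _ κ σ r r' R R'), Z_congr (swap_wq _ κ σ r r' R' R)]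
      exact hlt.ne'
    · obtain ⟨t, ht, hlt⟩ := strict_wq (h := 2 * (R + R')) hTR hTB hκ hσ hσ1 h2 g h5 g' (by ring)
      refine ⟨t, ht, ?_⟩
      rw [Z_congr (swap_wq _ κ σ r r' R R'), Z_congr (swap_wq _ κ σ r r' R' R)]
      exact hlt.ne

/-- SW: the exchange changes the heat trace -/
theorem sw (hTR : S_TR) (hTB : S_TB) : S_SW := by
  intro l s s' a b a' b' hl ha hb ha' hb' hs hss haa e1 e2
  obtain ⟨κ, σ, hκ, hσ, hσ1, hφ⟩ := q4_wq (l := l) hs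
  have hm : 0 < √(1 + s ^ 2) := Real.sqrt_pos.2 (by positivity)
  have hm' : 0 < √(1 + s' ^ 2) := Real.sqrt_pos.2 (by positivity)
  have hsq : √(1 + s ^ 2) ^ 2 = 1 + s ^ 2 := Real.sq_sqrt (by positivity)
  have hsq' : √(1 + s' ^ 2) ^ 2 = 1 + s' ^ 2 := Real.sq_sqrt (by positivity)
  have hy : 0 < -(l / (s + s')) := by
    rw [neg_pos]
    exact div_neg_of_pos_of_neg hl hs
  have hmm : √(1 + s ^ 2) ≠ √(1 + s' ^ 2) := by
    intro h
    rw [h, hsq'] at hsq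
    have h1 : (s' - s) * (s' + s) = 0 := by linarith
    rcases mul_eq_zero.1 h1 with h2 | h2
    · exact hss (by linarith)
    · linarith
  have k1 := fun h => Z_congr (hφ a b h)
  have k2 := fun h => Z_congr (hφ a' b' h)
  rw [← e1] at k2
  rw [← e2] at k2
  obtain ⟨t, ht, hne⟩ := ne_wq hTR hTB (r := -(l / (s + s')) * √(1 + s' ^ 2))
    (r' := -(l / (s + s')) * √(1 + s ^ 2)) (R := (b - l / (s + s')) * √(1 + s' ^ 2))
    (R' := (a - l / (s + s')) * √(1 + s ^ 2)) hκ hσ hσ1 (by positivity) (by positivity)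
    (fun h => hmm (mul_left_cancel₀ hy.ne' h).symm)
    (mul_lt_mul_of_pos_right (by linarith) hm') (mul_lt_mul_of_pos_right (by linarith) hm)
    (by rw [e1]; exact mul_lt_mul_of_pos_right (by linarith) hm')
    (by rw [e2]; exact mul_lt_mul_of_pos_right (by linarith) hm)
    (by
      intro h
      rw [e2] at h
      have := mul_right_cancel₀ hm.ne' h
      exact haa (by linarith))
  refine ⟨t, ht, ?_⟩
  rw [k1, k2]
  exact hne

end Pool.Agent.N96.QD
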