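import Pool.Agent.R225.LP.FP3
import Pool.Agent.R225.LP.Stm2

set_option autoImplicit false

/-!
# QD/SW, part 1: a sufficient condition for strict inequality of the heat traces
(helper96, for the project of helper275; the proof follows `R225/LP/FP4.lean`)
-/

namespace Pool.Agent.N96.QD

open MeasureTheory Set Filter Topology Complex ProbabilityTheory
open Pool.Agent.W780.PG (IsConvexPolygon region ang lft reg)
open Pool.Agent.Y289.SQ (Z area per)
open scoped Real ENNReal ComplexConjugate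
open Pool.Agent.R225.LP
open Pool.Agent.R225.LP.FP

section
variable {h η δ : ℝ} {P Lf : Set ℂ} {z₁ z₂ : ℂ}

/-- the tube -/
def Tb (z₁ z₂ : ℂ) (δ : ℝ) {n : ℕ} : Set (Fin (n + 1) → ℂ) :=
  {W | (∀ i, Metric.infDist (W i) (segment ℝ z₁ z₂) ≤ 2 * δ) ∧
    (∃ i, ‖W i - z₁‖ ≤ 2 * δ) ∧ ∃ i, ‖W i - z₂‖ ≤ 2 * δ}

/-- the assumptions on the tube -/
structure Gd (h η δ : ℝ) (P Lf : Set ℂ) (z₁ z₂ : ℂ) : Prop where
  dpos : 0 < δ
  npos : 0 < η
  tube : ∀ w x : ℂ, x ∈ segment ℝ z₁ z₂ → ‖w - x‖ ≤ 2 * δ → w ∈ P ∧ η ≤ h - 2 * w.im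
  fst : ∀ w : ℂ, ‖w - z₁‖ ≤ 2 * δ → w ∈ Lf ∧ J h w ∉ P
  snd : ∀ w : ℂ, ‖w - z₂‖ ≤ 2 * δ → w ∉ Lf ∧ J h w ∉ P

theorem tb_sub (hG : Gd h η δ P Lf z₁ z₂) {n : ℕ} {W : Fin (n + 1) → ℂ} (hW : W ∈ Tb z₁ z₂ δ) :
    W ∈ Tt h P Lf ∧ ∀ i, η ≤ h - 2 * (W i).im := by
  obtain ⟨h1, ⟨j, hj⟩, k, hk⟩ := hW
  have hcomp : IsCompact (segment ℝ z₁ z₂) := by
    rw [segment_eq_image_lineMap]
    exact isCompact_Icc.image (AffineMap.lineMap_continuous)
  have hne : (segment ℝ z₁ z₂).Nonempty := ⟨z₁, left_mem_segment ℝ z₁ z₂⟩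
  have h2 : ∀ i, W i ∈ P ∧ η ≤ h - 2 * (W i).im := by
    intro i
    obtain ⟨x, hx, hxd⟩ := hcomp.exists_infDist_eq_dist hne (W i)
    refine hG.tube (W i) x hx ?_
    rw [← dist_eq_norm, ← hxd]
    exact h1 i
  have hη := hG.npos
  refine ⟨⟨fun i => ⟨(h2 i).1, ?_⟩, ⟨j, hG.fst _ hj⟩, k, hG.snd _ hk⟩, fun i => (h2 i).2⟩
  have := (h2 i).2
  linarith

theorem r0_low (hG : Gd h η δ P Lf z₁ z₂) {n : ℕ} {s : ℝ} (hs : 0 < s)
    (hM : (n + 1 : ℕ) * Real.exp (-(η ^ 2 / (4 * s))) ≤ 1 / 2) {W : Fin (n + 1) → ℂ}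
    (hW : W ∈ Tb z₁ z₂ δ) : 1 / 2 * cyc s W ≤ R0 h s P Lf W := by
  classical
  obtain ⟨hT, h4⟩ := tb_sub hG hW
  have hη := hG.npos
  rw [R0, if_pos hT]
  set e := Real.exp (-(η ^ 2 / (4 * s))) with he
  have he0 : 0 < e := Real.exp_pos _
  have he1 : e ≤ 1 := by
    have : (1 : ℝ) ≤ ((n + 1 : ℕ) : ℝ) := by push_cast; linarith [Nat.cast_nonneg (α := ℝ) n]
    nlinarith
  have key : ∀ i, gk s (W (i + 1) - W i) * (1 - e) ≤
      gk s (W (i + 1) - W i) - gk s (J h (W (i + 1)) - W i) := by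
    intro i
    have h5 : gk s (J h (W (i + 1)) - W i) ≤ gk s (W (i + 1) - W i) * e := by
      rw [gk, gk, he, div_mul_eq_mul_div, ← Real.exp_add, J_sq]
      refine div_le_div_of_nonneg_right (Real.exp_le_exp.2 ?_) (by positivity)
      have h6 : η * η ≤ (h - 2 * (W (i + 1)).im) * (h - 2 * (W i).im) :=
        mul_le_mul (h4 _) (h4 _) (by positivity) (by have := h4 (i + 1); linarith)
      rw [sq η, add_div]
      have h7 : η * η / (4 * s) ≤
          (h - 2 * (W (i + 1)).im) * (h - 2 * (W i).im) / (4 * s) :=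
        div_le_div_of_nonneg_right h6 (by positivity)
      linarith
    nlinarith
  have h8 : ∏ i, (gk s (W (i + 1) - W i) * (1 - e)) ≤
      ∏ i, (gk s (W (i + 1) - W i) - gk s (J h (W (i + 1)) - W i)) :=
    Finset.prod_le_prod (fun i _ => mul_nonneg (gk_nonneg hs _) (by linarith)) fun i _ => key i
  refine le_trans ?_ h8
  rw [Finset.prod_mul_distrib, Finset.prod_const, Finset.card_univ, Fintype.card_fin]
  have h9 : (1 : ℝ) / 2 ≤ (1 - e) ^ (n + 1) := by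
    have := one_add_mul_le_pow (a := -e) (by linarith) (n + 1)
    have h10 : ((n + 1 : ℕ) : ℝ) * e ≤ 1 / 2 := hM
    calc (1 : ℝ) / 2 ≤ 1 + ((n + 1 : ℕ) : ℝ) * (-e) := by linarith
      _ ≤ (1 + -e) ^ (n + 1) := this
      _ = (1 - e) ^ (n + 1) := by rw [← sub_eq_add_neg]
  have h11 := cyc_nonneg hs W
  rw [cyc] at h11 ⊢
  rw [mul_comm]
  exact mul_le_mul_of_nonneg_left h9 h11

theorem tb_meas (z₁ z₂ : ℂ) (δ : ℝ) (n : ℕ) :
    MeasurableSet (Tb z₁ z₂ δ : Set (Fin (n + 1) → ℂ)) := by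
  have e : (Tb z₁ z₂ δ : Set (Fin (n + 1) → ℂ)) =
      (⋂ i, (fun Z : Fin (n + 1) → ℂ => Z i) ⁻¹' {z | Metric.infDist z (segment ℝ z₁ z₂) ≤ 2 * δ}) ∩
      ((⋃ i, (fun Z : Fin (n + 1) → ℂ => Z i) ⁻¹' {z | ‖z - z₁‖ ≤ 2 * δ}) ∩
        ⋃ i, (fun Z : Fin (n + 1) → ℂ => Z i) ⁻¹' {z | ‖z - z₂‖ ≤ 2 * δ}) := by
    ext Z
    simp [Tb]
  rw [e]
  have m1 : MeasurableSet {z : ℂ | Metric.infDist z (segment ℝ z₁ z₂) ≤ 2 * δ} :=
    (isClosed_le (Metric.continuous_infDist_pt _) continuous_const).measurableSet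
  have m2 : MeasurableSet {z : ℂ | ‖z - z₁‖ ≤ 2 * δ} :=
    (isClosed_le (by fun_prop) (by fun_prop)).measurableSet
  have m3 : MeasurableSet {z : ℂ | ‖z - z₂‖ ≤ 2 * δ} :=
    (isClosed_le (by fun_prop) (by fun_prop)).measurableSet
  exact (MeasurableSet.iInter fun i => measurable_pi_apply i m1).inter
    ((MeasurableSet.iUnion fun i => measurable_pi_apply i m2).inter
      (MeasurableSet.iUnion fun i => measurable_pi_apply i m3))

/-- lower bound for the integral of `R0` -/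
theorem int_low (hTB : S_TB) (hG : Gd h η δ P Lf z₁ z₂) :
    ∃ t : ℝ, 0 < t ∧ ∃ c : ℝ≥0∞, 0 < c ∧ ∀ᶠ k : ℕ in atTop,
      c ≤ ∫⁻ W : Fin ((2 * k + 1) + 1) → ℂ, ENNReal.ofReal
        (R0 h (t / ((2 * k + 1 : ℕ) + 1)) P Lf W) := by
  have hδ := hG.dpos
  have hη := hG.npos
  set v : ℂ := z₂ - z₁ with hv
  obtain ⟨t₀, ht₀, hTB⟩ := hTB v δ hδ
  set t : ℝ := t₀ / 2 with ht
  have ht0 : 0 < t := by positivity
  set pr : ℝ≥0∞ := ENNReal.ofReal (1 / 2 * Real.exp (-((‖v‖ ^ 2 + 2 * ‖v‖ * δ) / t)))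
    with hpr
  have hpr0 : 0 < pr := by rw [hpr, ENNReal.ofReal_pos]; positivity
  have hvol : 0 < volume (Metric.ball z₁ δ) := Metric.measure_ball_pos _ _ hδ
  have h4 : ENNReal.ofReal (4 * π * t) ≠ 0 := by
    rw [Ne, ENNReal.ofReal_eq_zero, not_le]; positivity
  set c : ℝ≥0∞ := ENNReal.ofReal (1 / 2) * ((ENNReal.ofReal (4 * π * t))⁻¹ *
    (volume (Metric.ball z₁ δ) * pr)) with hc
  refine ⟨t, ht0, c, ?_, ?_⟩
  · rw [hc]
    refine ENNReal.mul_pos (by simp) ?_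
    refine mul_ne_zero (ENNReal.inv_ne_zero.2 ENNReal.ofReal_ne_top) ?_
    exact mul_ne_zero hvol.ne' hpr0.ne'
  -- the number of steps is large
  have hlim : ∀ᶠ k : ℕ in atTop, ((2 * k + 1 + 1 : ℕ) : ℝ) *
      Real.exp (-(η ^ 2 / (4 * (t / ((2 * k + 1 : ℕ) + 1))))) ≤ 1 / 2 := by
    have h5 : Tendsto (fun r : ℝ => r * Real.exp (-(η ^ 2 / (4 * t)) * r)) atTop (𝓝 0) := by
      have hc0 : 0 < η ^ 2 / (4 * t) := by positivity
      have g1 := (Real.tendsto_pow_mul_exp_neg_atTop_nhds_zero 1).comp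
        (tendsto_id.const_mul_atTop hc0)
      have g2 := g1.const_mul (η ^ 2 / (4 * t))⁻¹
      rw [mul_zero] at g2
      refine g2.congr fun r => ?_
      simp only [Function.comp_apply, pow_one, id]
      rw [← mul_assoc, ← mul_assoc, inv_mul_cancel₀ hc0.ne', one_mul, neg_mul]
    have h6 : Tendsto (fun k : ℕ => ((2 * k + 1 + 1 : ℕ) : ℝ)) atTop atTop := by
      refine tendsto_natCast_atTop_atTop.comp ?_
      exact tendsto_atTop_mono (fun k => by simp only [id]; omega) tendsto_id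
    have h7 := (h5.comp h6).eventually (gt_mem_nhds (show (0 : ℝ) < 1 / 2 by norm_num))
    filter_upwards [h7] with k hk
    refine le_trans (le_of_eq ?_) hk.le
    simp only [Function.comp_apply]
    congr 2
    push_cast
    field_simp
  filter_upwards [hlim] with k hk
  have hM0 : (0 : ℝ) < ((2 * k + 1 : ℕ) : ℝ) + 1 := by positivity
  set s : ℝ := t / (((2 * k + 1 : ℕ) : ℝ) + 1) with hs
  have hs0 : 0 < s := by positivity
  -- the loops
  have e1 : 2 * ((k + 1 : ℕ) : ℝ) * s = t := by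
    rw [hs]; push_cast; field_simp; ring
  have hTBk := hTB (k + 1) s (Nat.succ_pos k) hs0 (by rw [e1, ht]; linarith)
  rw [e1] at hTBk
  set E : Set (Fin (2 * (k + 1)) → ℂ) := {X | (∀ z ∈ pts X, ∃ r : ℝ, 0 ≤ r ∧ r ≤ 1 ∧
    ‖z - r * v‖ ≤ δ) ∧ ∃ z ∈ pts X, ‖z - v‖ ≤ δ} with hE
  have hTu := tb_meas z₁ z₂ δ (2 * k + 1)
  have hlaw := loop_law hs0 (2 * k + 1)
    (Φ := (Tb z₁ z₂ δ : Set (Fin ((2 * k + 1) + 1) → ℂ)).indicator 1)
      (measurable_one.indicator hTu)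
  have e2 : 4 * π * (((2 * k + 1 + 1 : ℕ) : ℝ) * s) = 4 * π * t := by
    rw [hs]; push_cast; field_simp
  rw [e2] at hlaw
  -- the tube contains the shifted loops
  have hsub : ∀ X ∈ E, ∀ z ∈ Metric.ball z₁ δ,
      (fun r : Fin ((2 * k + 1) + 1) => z + gm (M := 2 * k + 1 + 1) X r) ∈
        (Tb z₁ z₂ δ : Set (Fin ((2 * k + 1) + 1) → ℂ)) := by
    intro X hX z hz
    obtain ⟨hX1, w, ⟨rw', hrw, hw⟩, hwv⟩ := hX
    rw [Metric.mem_ball, dist_eq_norm] at hz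
    refine ⟨fun r => ?_, ⟨0, ?_⟩, ⟨⟨rw', hrw⟩, ?_⟩⟩
    · obtain ⟨a, ha0, ha1, ha⟩ := hX1 (gm (M := 2 * k + 1 + 1) X r) ⟨r, r.2, rfl⟩
      have hmem : z₁ + a * v ∈ segment ℝ z₁ z₂ := by
        rw [segment_eq_image']
        refine ⟨a, ⟨ha0, ha1⟩, ?_⟩
        simp only [Complex.real_smul, hv]
      refine (Metric.infDist_le_dist_of_mem hmem).trans ?_
      rw [dist_eq_norm]
      have : z + gm (M := 2 * k + 1 + 1) X r - (z₁ + a * v) =
        (z - z₁) + (gm (M := 2 * k + 1 + 1) X r - a * v) := by ring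
      rw [this]
      refine (norm_add_le _ _).trans ?_
      linarith
    · have e3 : gm (M := 2 * k + 1 + 1) X ((0 : Fin (2 * k + 1 + 1)) : ℕ) = 0 := by
        rw [Fin.val_zero, gm, sg_zero]
      change ‖z + gm (M := 2 * k + 1 + 1) X ((0 : Fin (2 * k + 1 + 1)) : ℕ) - z₁‖ ≤ _
      rw [e3, add_zero]
      linarith
    · have e4 : gm (M := 2 * k + 1 + 1) X rw' = w := hw
      change ‖z + gm (M := 2 * k + 1 + 1) X rw' - z₂‖ ≤ 2 * δ
      rw [e4]
      have : z + w - z₂ = (z - z₁) + (w - v) := by rw [hv]; ring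
      rw [this]
      refine (norm_add_le _ _).trans ?_
      linarith
  have hPG : pr * volume (Metric.ball z₁ δ) ≤
      ∫⁻ X, ∫⁻ z : ℂ, (Tb z₁ z₂ δ : Set (Fin ((2 * k + 1) + 1) → ℂ)).indicator
        (1 : (Fin ((2 * k + 1) + 1) → ℂ) → ℝ≥0∞) (fun r => z + gm X r) ∂volume
          ∂(PG s (2 * k + 1 + 1)) := by
    have hf := loop_meas (m := 2 * k + 1)
      (Φ := (Tb z₁ z₂ δ : Set (Fin ((2 * k + 1) + 1) → ℂ)).indicator 1)
        (measurable_one.indicator hTu)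
    refine le_trans ?_ (mul_meas_ge_le_lintegral (μ := PG s (2 * k + 1 + 1)) hf
      (volume (Metric.ball z₁ δ)))
    rw [mul_comm]
    refine mul_le_mul_right (hTBk.trans (measure_mono fun X hX => ?_)) _
    change volume (Metric.ball z₁ δ) ≤ _
    rw [← lintegral_indicator_one Metric.isOpen_ball.measurableSet]
    refine lintegral_mono fun z => ?_
    by_cases hz : z ∈ Metric.ball z₁ δ
    · rw [indicator_of_mem hz]
      rw [indicator_of_mem (hsub X hX z hz)]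
      rfl
    · rw [indicator_of_notMem hz]
      exact zero_le
  -- conclusion
  have h9 : ENNReal.ofReal (1 / 2) * ∫⁻ W : Fin ((2 * k + 1) + 1) → ℂ, ENNReal.ofReal (cyc s W) *
      (Tb z₁ z₂ δ : Set (Fin ((2 * k + 1) + 1) → ℂ)).indicator 1 W ≤
      ∫⁻ W : Fin ((2 * k + 1) + 1) → ℂ, ENNReal.ofReal (R0 h s P Lf W) := by
    have hmm : Measurable (fun W : Fin ((2 * k + 1) + 1) → ℂ => ENNReal.ofReal (cyc s W) *
        (Tb z₁ z₂ δ : Set (Fin ((2 * k + 1) + 1) → ℂ)).indicator 1 W) :=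
      (cyc_cont s).measurable.ennreal_ofReal.mul (measurable_one.indicator hTu)
    rw [← lintegral_const_mul _ hmm]
    refine lintegral_mono fun W => ?_
    by_cases hW : W ∈ (Tb z₁ z₂ δ : Set (Fin ((2 * k + 1) + 1) → ℂ))
    · rw [indicator_of_mem hW, Pi.one_apply, mul_one, ← ENNReal.ofReal_mul (by norm_num)]
      exact ENNReal.ofReal_le_ofReal (r0_low hG hs0 hk hW)
    · rw [indicator_of_notMem hW, mul_zero, mul_zero]
      exact zero_le
  refine le_trans ?_ h9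
  rw [hc]
  refine mul_le_mul_right ?_ _
  have h10 : (ENNReal.ofReal (4 * π * t))⁻¹ * (volume (Metric.ball z₁ δ) * pr) ≤
      (ENNReal.ofReal (4 * π * t))⁻¹ * (ENNReal.ofReal (4 * π * t) *
        ∫⁻ W : Fin ((2 * k + 1) + 1) → ℂ, ENNReal.ofReal (cyc s W) *
        (Tb z₁ z₂ δ : Set (Fin ((2 * k + 1) + 1) → ℂ)).indicator 1 W) := by
    rw [hlaw, mul_comm (volume _) pr]
    exact mul_le_mul_right hPG _
  rwa [← mul_assoc (ENNReal.ofReal (4 * π * t))⁻¹ (ENNReal.ofReal (4 * π * t)),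
    ENNReal.inv_mul_cancel h4 ENNReal.ofReal_ne_top, one_mul] at h10

end

/-- strict inequality of the heat traces -/
theorem strict (hTR : S_TR) (hTB : S_TB) {h η δ : ℝ} {Lf : Set ℂ} {z₁ z₂ : ℂ} {n n' : ℕ}
    {p : Fin (n + 3) → ℂ} {p' : Fin (n' + 3) → ℂ} (hp : IsConvexPolygon p)
    (hp' : IsConvexPolygon p') (hA : As h (region p) (region p') Lf) (hL : MeasurableSet Lf)
    (hG : Gd h η δ (region p) Lf z₁ z₂) :
    ∃ t : ℝ, 0 < t ∧ Z (region p') t < Z (region p) t := by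
  obtain ⟨t, ht, c, hc, hev⟩ := int_low hTB hG
  refine ⟨t, ht, ?_⟩
  have hmeas : MeasurableSet (region p) := isOpen_interior.measurableSet
  have hmeas' : MeasurableSet (region p') := isOpen_interior.measurableSet
  have hsubseq : Tendsto (fun k : ℕ => 2 * k + 1) atTop atTop :=
    tendsto_atTop_mono (fun k => by simp only [id]; omega) tendsto_id
  have l1 := (hTR _ _ hp t ht).comp hsubseq
  have l2 := (hTR _ _ hp' t ht).comp hsubseq
  have l3 := l2.add_const c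
  have hle : ENNReal.ofReal (Z (region p') t) + c ≤ ENNReal.ofReal (Z (region p) t) := by
    refine le_of_tendsto_of_tendsto l3 l1 ?_
    filter_upwards [hev] with k hk
    simp only [Function.comp_apply]
    have hs : 0 < t / (((2 * k + 1 : ℕ) : ℝ) + 1) := by positivity
    have h1 := trace_ineq hs hA hmeas hmeas' hL (2 * k + 1)
    exact (add_le_add_right hk _).trans h1
  have hZ0 : 0 ≤ Z (region p') t := tsum_nonneg fun k => (Real.exp_pos _).le
  have hlt : ENNReal.ofReal (Z (region p') t) < ENNReal.ofReal (Z (region p) t) :=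
    lt_of_lt_of_le (ENNReal.lt_add_right ENNReal.ofReal_ne_top hc.ne') hle
  exact (ENNReal.ofReal_lt_ofReal_iff_of_nonneg hZ0).1 hlt

end Pool.Agent.N96.QD
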